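import Mathlib
import Pool.Agent.Lib.MP_fd11a7_an.Build

set_option autoImplicit false

open Filter Topology

namespace Pool.Agent.Results.MP_fd11a7_an.Growth

open Pool.Agent.Lib.MP_fd11a7_an

/-- For every dispersive billiard table the number of periodic orbits of period at most `n` is
finite, its exponential growth rate exists, and it equals the topological entropy. -/
theorem result (T : Table) : (∀ n, (T.perOrbits n).Finite) ∧ ∃ h : ℝ, 0 ≤ h ∧
    Tendsto (fun n : ℕ => Real.log (T.perOrbits n).ncard / n) atTop (𝓝 h) ∧
    T.htop = ENNReal.ofReal h :=
  main T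

end Pool.Agent.Results.MP_fd11a7_an.Growth
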